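import Pool.Agent.Helper94.LE.Part

set_option autoImplicit false

namespace Pool.Agent.Results.MP_120218_co.LowEnergy

open Finset
open Pool.Agent.Helper94.LE

/-- **Low-energy structure theorem for finite sets of integers.**

`addE h S` and `mulE h S` are the numbers of solutions of `x₁ + ... + x_h = y₁ + ... + y_h` and of
`x₁ ... x_h = y₁ ... y_h` in `S`.  There is `c > 0` such that for all `k ≥ 2` and `0 < ε ≤ 1`, with
`d = c ε / (k log k)`, there are constants `C_1, C_2, ...` such that for every finite non-empty set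
`A` of integers, `N = |A|`:

1. `A` is a disjoint union of `B`, `P`, `M` (`0` not in `P`, `M`) with
   `addE k B ≤ C_k N^(k+ε)` and `mulE k P ≤ C_k N^(k+ε)`, and for every `h ≥ 1` the additive energy of order `h` of `B ∪ M` and
   the multiplicative energy of order `h` of `P ∪ M` are at most `C_h N^(2h-1-d log h)`;
2. `|A^k| ≥ N^(k-ε) / C_k`, or all additive energies of `A` are small:
   `addE h A ≤ C_h N^(2h-1-d log h)` for every `h ≥ 1`;
3. `|kA| ≥ N^(k-ε) / C_k`, or all multiplicative energies of `A` without `0` are small: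
   `mulE h (A \ {0}) ≤ C_h N^(2h-1-d log h)` for every `h ≥ 1`. -/
theorem result : ∃ c : ℝ, 0 < c ∧ ∀ (k : ℕ) (ε : ℝ), 2 ≤ k → 0 < ε → ε ≤ 1 →
    ∃ C : ℕ → ℝ, (∀ h, 1 ≤ C h) ∧ ∀ A : Finset ℤ, A.Nonempty →
      (∃ B P M : Finset ℤ, Disjoint B P ∧ Disjoint B M ∧ Disjoint P M ∧ B ∪ P ∪ M = A ∧
        (0 : ℤ) ∉ P ∪ M ∧
        (addE k B : ℝ) ≤ C k * (A.card : ℝ) ^ ((k : ℝ) + ε) ∧
        (mulE k P : ℝ) ≤ C k * (A.card : ℝ) ^ ((k : ℝ) + ε) ∧
        ∀ h : ℕ, 1 ≤ h →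
          (addE h (B ∪ M) : ℝ) ≤
            C h * (A.card : ℝ) ^ (2 * (h : ℝ) - 1 - c * ε / (k * Real.log k) * Real.log h) ∧
          (mulE h (P ∪ M) : ℝ) ≤
            C h * (A.card : ℝ) ^ (2 * (h : ℝ) - 1 - c * ε / (k * Real.log k) * Real.log h)) ∧
      ((A.card : ℝ) ^ ((k : ℝ) - ε) ≤ C k *
          (((Fintype.piFinset (fun _ : Fin k => A)).image
            (fun f : Fin k → ℤ => ∏ i, f i)).card : ℝ) ∨
        ∀ h : ℕ, 1 ≤ h → (addE h A : ℝ) ≤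
          C h * (A.card : ℝ) ^ (2 * (h : ℝ) - 1 - c * ε / (k * Real.log k) * Real.log h)) ∧
      ((A.card : ℝ) ^ ((k : ℝ) - ε) ≤ C k *
          (((Fintype.piFinset (fun _ : Fin k => A)).image
            (fun f : Fin k → ℤ => ∑ i, f i)).card : ℝ) ∨
        ∀ h : ℕ, 1 ≤ h → (mulE h (A.erase 0) : ℝ) ≤
          C h * (A.card : ℝ) ^ (2 * (h : ℝ) - 1 - c * ε / (k * Real.log k) * Real.log h)) :=
  main

/-- **Two functions control all energies of all subsets** (the finer form behind `result`): every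
finite non-empty set `A` of integers carries functions `p, q ≥ 0` with `p + q ≥ 1` such that for
every subset `S` and `0 < σ ≤ 1`: if `p ≤ σ` on `S`, the multiplicative energies of `S` are almost
minimal; if `p ≥ σ` on `S`, all additive energies of `S` are small; and the same for `q` with the
two operations exchanged. -/
theorem two_functions : ∃ c C : ℝ, 0 < c ∧ 0 < C ∧ ∃ K : ℝ → ℕ → ℝ, (∀ σ h, 1 ≤ K σ h) ∧
    ∀ A : Finset ℤ, A.Nonempty → ∃ p q : ℤ → ℝ,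
      (∀ a ∈ A, 0 ≤ p a ∧ 0 ≤ q a ∧ 1 ≤ p a + q a) ∧ (q 0 ≤ 0) ∧
      ∀ S ⊆ A, ∀ σ : ℝ, 0 < σ → σ ≤ 1 →
        ((∀ a ∈ S, p a ≤ σ) → ∀ k : ℕ, 2 ≤ k →
          (mulE k S : ℝ) ≤ C ^ k * (S.card : ℝ) ^ k * (A.card : ℝ) ^ (C * σ * k * Real.log k)) ∧
        ((∀ a ∈ S, q a ≤ σ) → ∀ k : ℕ, 2 ≤ k →
          (addE k S : ℝ) ≤ C ^ k * (S.card : ℝ) ^ k * (A.card : ℝ) ^ (C * σ * k * Real.log k)) ∧
        ((∀ a ∈ S, σ ≤ p a) → ∀ h : ℕ, 1 ≤ h →
          (addE h S : ℝ) ≤ K σ h * (A.card : ℝ) ^ (2 * (h : ℝ) - 1 - c * σ * Real.log h)) ∧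
        ((∀ a ∈ S, σ ≤ q a) → ∀ h : ℕ, 1 ≤ h →
          (mulE h S : ℝ) ≤ K σ h * (A.card : ℝ) ^ (2 * (h : ℝ) - 1 - c * σ * Real.log h)) :=
  pq

end Pool.Agent.Results.MP_120218_co.LowEnergy
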